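import Pool.Agent.H937.QS.Stm2

/-! Project QS, task D: the universal algebra for the generic basis of functions on four points. -/

set_option autoImplicit false

open scoped Matrix TensorProduct
open Pool.Agent.H937.QS

universe u v

namespace Pool.Agent.H721.QS.D

section nat

variable {S : Type u} {S' : Type v} [CommRing S] [CommRing S'] (f : S →+* S')

theorem qq_nat (a : Fin 12 → S) (X : Fin 15) : qq (fun s => f (a s)) X = f (qq a X) := by
  fin_cases X <;> simp [qq]

theorem pp_nat (a : Fin 12 → S) : pp (fun s => f (a s)) = fun X => f (pp a X) := by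
  funext X
  rw [pp, pp, qq_nat, map_mul]

theorem tt_nat (a : Fin 12 → S) : tt (fun s => f (a s)) = fun X => f (tt a X) := by
  funext X
  fin_cases X <;> rfl

theorem F1_nat (t : Fin 3 → S) (p : Fin 15 → S) :
    (F1 t p).map f = F1 (fun i => f (t i)) (fun i => f (p i)) := by
  ext m l
  fin_cases m <;> fin_cases l <;> simp [F1, map_ofNat f 2]

theorem F2_nat (t : Fin 3 → S) (p : Fin 15 → S) :
    (F2 t p).map f = F2 (fun i => f (t i)) (fun i => f (p i)) := by
  ext m l
  fin_cases m <;> fin_cases l <;> simp [F2, map_ofNat f 2]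

theorem F3_nat (t : Fin 3 → S) (p : Fin 15 → S) :
    (F3 t p).map f = F3 (fun i => f (t i)) (fun i => f (p i)) := by
  ext m l
  fin_cases m <;> fin_cases l <;> simp [F3, map_ofNat f 2]

theorem DF_nat (a : Fin 12 → S) (i : Fin 4) : (DF a i).map f = DF (fun s => f (a s)) i := by
  fin_cases i
  · exact Matrix.map_one f (map_zero f) (map_one f)
  · show (F1 (tt a) (pp a)).map f = F1 (tt fun s => f (a s)) (pp fun s => f (a s))
    rw [F1_nat, tt_nat, pp_nat]
  · show (F2 (tt a) (pp a)).map f = F2 (tt fun s => f (a s)) (pp fun s => f (a s))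
    rw [F2_nat, tt_nat, pp_nat]
  · show (F3 (tt a) (pp a)).map f = F3 (tt fun s => f (a s)) (pp fun s => f (a s))
    rw [F3_nat, tt_nat, pp_nat]

theorem pL_nat (s : Fin 3 → Fin 3 → Fin 4 → S) (X : Fin 15) :
    pL (fun i j m => f (s i j m)) X = f (pL s X) := by
  fin_cases X <;> simp [pL, map_ofNat f 2]

theorem tL_nat (s : Fin 3 → Fin 3 → Fin 4 → S) (X : Fin 3) :
    tL (fun i j m => f (s i j m)) X = f (tL s X) := by
  fin_cases X <;> rfl

end nat

section fld

variable {L : Type u} {L' : Type v} [Field L] [Field L'] (f : L →+* L')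

theorem inv_nat (N : Matrix (Fin 4) (Fin 4) L) (hN : N.det ≠ 0) : (N.map f)⁻¹ = N⁻¹.map f := by
  apply Matrix.inv_eq_right_inv
  rw [← Matrix.map_mul, Matrix.mul_nonsing_inv _ (isUnit_iff_ne_zero.2 hN),
    Matrix.map_one f (map_zero f) (map_one f)]

theorem co_nat (N : Matrix (Fin 4) (Fin 4) L) (hN : N.det ≠ 0) (g : Fin 4 → L) (m : Fin 4) :
    co (N.map f) (fun q => f (g q)) m = f (co N g m) := by
  rw [co, co, inv_nat f N hN]
  simp only [Matrix.mulVec, dotProduct, Matrix.map_apply, map_sum, map_mul]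

theorem sc_nat (N : Matrix (Fin 4) (Fin 4) L) (hN : N.det ≠ 0) :
    sc (N.map f) = fun i j m => f (sc N i j m) := by
  funext i j m
  rw [sc, sc, ← co_nat f N hN]
  simp only [Matrix.map_apply, map_mul]

theorem par_nat (N : Matrix (Fin 4) (Fin 4) L) (hN : N.det ≠ 0) (s : Fin 12) :
    par (N.map f) s = f (par N s) := by
  rw [par, par, sc_nat f N hN]
  fin_cases s <;> simp [pL_nat, tL_nat]

end fld

theorem t_D (hCORE : S_CORE.{u}) (hCOMM : S_COMM.{u}) (hSTR : S_STR.{u}) (hIND : S_IND.{u}) :
    S_D.{u} := by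
  intro k B R L _ _ _ _ _ _ j hj _ _ φ γ hφ ev hev
  obtain ⟨hdet, hpL, hind⟩ := hIND k
  have hT1 : ∀ q, Tg k q 0 = 1 := fun q => rfl
  obtain ⟨hmul, -, -⟩ := hSTR _ (Tg k) hT1 hdet hpL
  obtain ⟨hcomm, hcol⟩ := hCOMM (MvPolynomial (Fin 12) k) MvPolynomial.X
  let D : MulData 3 (MvPolynomial (Fin 12) k) :=
    { F := DF MvPolynomial.X
      zero := rfl
      comm := hcomm
      col := hcol }
  have hD : ∀ i, D.F i = DF MvPolynomial.X i := fun i => rfl
  have hDn : ∀ (C : Type u) [CommRing C] [Algebra k C] (a : Fin 12 → C) (i : Fin 4),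
      (D.F i).map (MvPolynomial.aeval a : MvPolynomial (Fin 12) k →ₐ[k] C) = DF a i := by
    intro C _ _ a i
    have h1 := DF_nat ((MvPolynomial.aeval a : MvPolynomial (Fin 12) k →ₐ[k] C) :
      MvPolynomial (Fin 12) k →+* C) MvPolynomial.X i
    have h2 : (fun s => ((MvPolynomial.aeval a : MvPolynomial (Fin 12) k →ₐ[k] C) :
      MvPolynomial (Fin 12) k →+* C) (MvPolynomial.X s)) = a := by
      funext s
      exact MvPolynomial.aeval_X _ _
    rw [h2] at h1
    exact h1
  obtain ⟨G, hG1, hG2, hG3⟩ := hCORE k _ B R L 3 j hj φ γ (Tg k) hT1 hdet (Fin 12)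
    (par (Tg k)) hind D (by
      intro q i l
      rw [hmul q i l]
      refine Finset.sum_congr rfl fun m _ => ?_
      have h1 := congrFun (congrFun (hDn _ (par (Tg k)) i) m) l
      rw [Matrix.map_apply] at h1
      rw [h1]) hφ
  refine ⟨UU k B D, inferInstance, inferInstance, G, fun b => (Uhom k B D b).v,
    fun s => algebraMap (MvPolynomial (Fin 12) k) (UU k B D) (MvPolynomial.X s), ?_, hG1, ?_, ?_, ?_⟩
  · have hs : Algebra.Smooth k (MvPolynomial (Fin 12) k) := ⟨inferInstance, inferInstance⟩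
    exact UU_smooth_base
  · intro b m
    rw [hG2, co]
    have h1 : ev b = fun q => γ (j q b) := funext (hev b)
    rw [h1]
  · intro s
    rw [hG3]
    exact (par_nat (φ : _ →+* L) (Tg k) hdet s).symm
  · intro C _ _ a f hf
    obtain ⟨hf1, hf2, hf3⟩ := hf
    let _ : Algebra (MvPolynomial (Fin 12) k) C :=
      (MvPolynomial.aeval a : MvPolynomial (Fin 12) k →ₐ[k] C).toRingHom.toAlgebra
    have _ : IsScalarTower k (MvPolynomial (Fin 12) k) C :=
      IsScalarTower.of_algebraMap_eq fun c =>
        ((MvPolynomial.aeval a : MvPolynomial (Fin 12) k →ₐ[k] C).commutes c).symm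
    have hF : ∀ i, (DU D C).F i = DF a i := fun i => hDn C a i
    let g : B →ₐ[k] Al (DU D C) :=
      { toFun := fun b => ⟨f b⟩
        map_one' := Al.ext (by
          have h1 := hf3 1
          rw [map_one, map_one] at h1
          exact h1)
        map_mul' := fun b b' => Al.ext (by
          show f (b * b') = (DU D C).M (f b) *ᵥ f b'
          rw [hf2, MulData.M]
          simp only [hF])
        map_zero' := Al.ext (by
          have h1 := hf3 0
          rw [map_zero, map_zero, Pi.single_zero] at h1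
          exact h1)
        map_add' := fun b b' => Al.ext (hf1 b b')
        commutes' := fun c => Al.ext (hf3 c) }
    obtain ⟨F, hF2⟩ := Ulift g
    refine ⟨F.restrictScalars k, fun b m => hF2 b m, fun s => ?_⟩
    show F (algebraMap (MvPolynomial (Fin 12) k) (UU k B D) (MvPolynomial.X s)) = a s
    rw [F.commutes]
    exact MvPolynomial.aeval_X _ _

end Pool.Agent.H721.QS.D
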